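import Pool.Agent.Run7.h128.FG.Cur
import Pool.Agent.Run7.h128.AU.Fin

/-!
Families of projective varieties over an affine space: the forms `F(t; ·)`, heights of their
coefficients, and the forward direction.
-/

set_option autoImplicit false
set_option linter.unusedSectionVars false

namespace Run7.h128.FG

open NumberField Height Finset MvPolynomial
open Run7.h128.AU (coefHeight outside curve curve_eval dichotomy outside_nonneg logHeight_le_sum)

section defs

variable {k : Type} [Field k] {q n : ℕ}

/-- the form `F(t; ·)` -/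
noncomputable def fib {K : Type} [CommRing K] [Algebra k K] (t : Fin q → K)
    (F : MvPolynomial (Fin (n + 1)) (MvPolynomial (Fin q) k)) : MvPolynomial (Fin (n + 1)) K :=
  MvPolynomial.map (aeval t : MvPolynomial (Fin q) k →ₐ[k] K).toRingHom F

/-- The family with the ideal `I`, homogeneous in the coordinates of the projective space, has a
uniruled generic fibre: over some extension field `L` of `k` some fibre, over the parameter `t`,
contains a nonconstant rational curve `p` such that `(t, p 1)` is a generic point of the family. -/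
def FibreUniruled (I : Ideal (MvPolynomial (Fin (n + 1)) (MvPolynomial (Fin q) k))) : Prop :=
  ∃ (L : Type) (_ : Field L) (_ : Algebra k L) (t : Fin q → L) (p : Fin (n + 1) → Polynomial L),
    (∀ F ∈ I, aeval p (fib t F) = 0) ∧
    (∀ G : MvPolynomial (Fin (n + 1)) (MvPolynomial (Fin q) k), (∃ e, G.IsHomogeneous e) →
      G ∉ I → eval (fun i => (p i).eval 1) (fib t G) ≠ 0) ∧
    ∃ i j, p i * Polynomial.C ((p j).eval 1) ≠ p j * Polynomial.C ((p i).eval 1)

end defs

variable {k : Type} [Field k] {q n : ℕ}

theorem fibreUniruled_of {I : Ideal (MvPolynomial (Fin (n + 1)) (MvPolynomial (Fin q) k))}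
    (h : UniruledA I) : FibreUniruled I := by
  obtain ⟨L, iL, iA, p, h1, h2, h3⟩ := h
  let _ : Algebra k L := ((algebraMap (MvPolynomial (Fin q) k) L).comp
    (algebraMap k (MvPolynomial (Fin q) k))).toAlgebra
  have : IsScalarTower k (MvPolynomial (Fin q) k) L := IsScalarTower.of_algebraMap_eq fun _ => rfl
  set t : Fin q → L := fun i => algebraMap (MvPolynomial (Fin q) k) L (X i) with ht
  have hmap : (aeval t : MvPolynomial (Fin q) k →ₐ[k] L).toRingHom =
      algebraMap (MvPolynomial (Fin q) k) L := by
    apply MvPolynomial.ringHom_ext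
    · intro a
      show aeval t (C a) = _
      rw [aeval_C]
      rfl
    · intro i
      show aeval t (X i) = _
      rw [aeval_X]
  have hfib : ∀ F : MvPolynomial (Fin (n + 1)) (MvPolynomial (Fin q) k),
      fib t F = MvPolynomial.map (algebraMap (MvPolynomial (Fin q) k) L) F := by
    intro F
    unfold fib
    rw [hmap]
  refine ⟨L, iL, inferInstance, t, p, ?_, ?_, h3⟩
  · intro F hF
    rw [hfib, aeval_map_algebraMap]
    exact h1 F hF
  · intro G hG hGI
    rw [hfib, eval_map]
    exact h2 G hG hGI

section heights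

variable {K : Type} [Field K] [NumberField K] [Algebra k K]

/-- heights of values of a polynomial -/
theorem height_value (a : MvPolynomial (Fin q) k) : ∃ C : ℝ, 0 ≤ C ∧ ∀ t : Fin q → K,
    logHeight₁ (aeval t a : K) ≤ C * (1 + ∑ i, logHeight₁ (t i)) := by
  have hs : ∀ t : Fin q → K, 0 ≤ ∑ i, logHeight₁ (t i) := fun t =>
    Finset.sum_nonneg fun i _ => zero_le_logHeight₁ _
  induction a using MvPolynomial.induction_on with
  | C c =>
    refine ⟨logHeight₁ (algebraMap k K c), zero_le_logHeight₁ _, fun t => ?_⟩
    rw [aeval_C]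
    exact le_mul_of_one_le_right (zero_le_logHeight₁ _) (by linarith [hs t])
  | add p p' hp hp' =>
    obtain ⟨C, hC, h⟩ := hp
    obtain ⟨C', hC', h'⟩ := hp'
    have hW : (0 : ℝ) ≤ totalWeight K * Real.log 2 :=
      mul_nonneg (Nat.cast_nonneg _) (Real.log_nonneg one_le_two)
    refine ⟨totalWeight K * Real.log 2 + C + C', by linarith, fun t => ?_⟩
    rw [map_add]
    have h1 := logHeight₁_add_le (aeval t p : K) (aeval t p' : K)
    have h2 := h t
    have h3 := h' t
    have h4 : totalWeight K * Real.log 2 ≤ totalWeight K * Real.log 2 *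
        (1 + ∑ i, logHeight₁ (t i)) := le_mul_of_one_le_right hW (by linarith [hs t])
    nlinarith [hs t]
  | mul_X p i hp =>
    obtain ⟨C, hC, h⟩ := hp
    refine ⟨C + 1, by linarith, fun t => ?_⟩
    rw [map_mul, aeval_X]
    have h1 := logHeight₁_mul_le (aeval t p : K) (t i)
    have h2 := h t
    have h3 : logHeight₁ (t i) ≤ ∑ i, logHeight₁ (t i) :=
      Finset.single_le_sum (f := fun i => logHeight₁ (t i))
        (fun i _ => zero_le_logHeight₁ _) (Finset.mem_univ i)
    nlinarith [hs t]

/-- heights of the coefficients of `F(t; ·)` -/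
theorem coefHeight_fib (F : MvPolynomial (Fin (n + 1)) (MvPolynomial (Fin q) k)) :
    ∃ C : ℝ, 0 ≤ C ∧ ∀ t : Fin q → K,
      coefHeight (fib t F) ≤ C * (1 + ∑ i, logHeight₁ (t i)) := by
  classical
  choose C hC h using fun β : Fin (n + 1) →₀ ℕ => height_value (K := K) (coeff β F)
  refine ⟨∑ β ∈ F.support, C β, Finset.sum_nonneg fun β _ => hC β, fun t => ?_⟩
  unfold coefHeight
  refine (logHeight_le_sum _).trans ?_
  have h1 : ∑ β : (fib t F).support, logHeight₁ (coeff β.1 (fib t F)) =
      ∑ β ∈ (fib t F).support, logHeight₁ (coeff β (fib t F)) :=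
    Finset.sum_coe_sort (fib t F).support fun β => logHeight₁ (coeff β (fib t F))
  rw [h1, Finset.sum_mul]
  have hsub : (fib t F).support ⊆ F.support := by
    intro β hβ
    rw [mem_support_iff] at hβ ⊢
    intro h0
    apply hβ
    unfold fib
    rw [coeff_map, h0, map_zero]
  refine (Finset.sum_le_sum_of_subset_of_nonneg hsub fun β _ _ => zero_le_logHeight₁ _).trans ?_
  refine Finset.sum_le_sum fun β _ => ?_
  have h2 : coeff β (fib t F) = aeval t (coeff β F) := by
    unfold fib
    rw [coeff_map]
    rfl
  rw [h2]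
  exact h β t

end heights

/-- the curve with exponents depending on the coordinates as a curve with more terms -/
theorem curve_eq {K : Type} [Field K] [NumberField K] {r : ℕ} (l : Fin r → Fin (n + 1) → ℕ)
    (y : Fin r → Fin (n + 1) → K) (i : Fin (n + 1)) :
    cur (fun (p : Fin r × Fin (n + 1)) i => if i = p.2 then y p.1 p.2 else 0)
      (fun p => l p.1 p.2) i = curve l y i := by
  classical
  unfold cur curve
  rw [Fintype.sum_prod_type]
  refine Finset.sum_congr rfl fun j _ => ?_
  rw [Finset.sum_eq_single i]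
  · simp
  · intro b _ hb
    have h1 : (if i = b then y j b else 0) = 0 := if_neg fun h => hb h.symm
    show Polynomial.C (if i = b then y j b else 0) * Polynomial.X ^ (l j b) = 0
    rw [h1, map_zero, zero_mul]
  · intro h
    exact absurd (Finset.mem_univ i) h

/-- **One exceptional set for all fibres, all number fields and all finite sets of places.** -/
theorem forward [NumberField k] {m : ℕ} (e : Fin m → ℕ)
    (F : Fin m → MvPolynomial (Fin (n + 1)) (MvPolynomial (Fin q) k))
    (hF : ∀ i, (F i).IsHomogeneous (e i)) (hprime : (Ideal.span (Set.range F)).IsPrime)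
    (hnu : ¬ FibreUniruled (Ideal.span (Set.range F))) (r : ℕ) :
    ∃ H : MvPolynomial (Fin (n + 1)) (MvPolynomial (Fin q) k), (∃ d, H.IsHomogeneous d) ∧
      H ∉ Ideal.span (Set.range F) ∧
      ∀ (K : Type) [Field K] [NumberField K] [Algebra k K] (S : Finset (FinitePlace K)),
        ∃ C : ℝ, ∀ (t : Fin q → K) (y : Fin r → Fin (n + 1) → K), (fun a => ∑ j, y j a) ≠ 0 →
          (∀ i, eval (fun a => ∑ j, y j a) (fib t (F i)) = 0) →
          eval (fun a => ∑ j, y j a) (fib t H) ≠ 0 →
          logHeight (fun a => ∑ j, y j a) ≤ C * (1 + ∑ i, logHeight₁ (t i) +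
            outside S fun p : Fin r × Fin (n + 1) => y p.1 p.2) := by
  classical
  obtain ⟨H, hH1, hH2, hH3⟩ := exists_hyper (Set.range F) hprime
    (fun h => hnu (fibreUniruled_of h)) (∑ i, e i + 1) (by omega) (by
      rintro _ ⟨i, rfl⟩
      refine ⟨e i, ?_, hF i⟩
      have := Finset.single_le_sum (f := e) (fun _ _ => Nat.zero_le _) (Finset.mem_univ i)
      omega) (Fin r × Fin (n + 1))
  refine ⟨H, hH1, hH2, ?_⟩
  intro K _ _ _ S
  obtain ⟨C, D, hD⟩ := dichotomy (K := K) S n r m e
  choose c hc0 hc using fun i => coefHeight_fib (K := K) (F i)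
  refine ⟨|C| * (1 + ∑ i, c i), fun t y hx h0 hHx => ?_⟩
  have hs : 0 ≤ ∑ i, logHeight₁ (t i) := Finset.sum_nonneg fun i _ => zero_le_logHeight₁ _
  have hcs : 0 ≤ ∑ i, c i := Finset.sum_nonneg fun i _ => hc0 i
  have hout := outside_nonneg S fun p : Fin r × Fin (n + 1) => y p.1 p.2
  rcases hD (fun i => fib t (F i)) (fun i => (hF i).map _) y hx h0 with h1 | ⟨l, _, h2, a, b, h3⟩
  · refine h1.trans ?_
    have h4 : ∑ i, coefHeight (fib t (F i)) ≤ (∑ i, c i) * (1 + ∑ i, logHeight₁ (t i)) := by
      rw [Finset.sum_mul]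
      exact Finset.sum_le_sum fun i _ => hc i t
    have h5 : (0 : ℝ) ≤ ∑ i, coefHeight (fib t (F i)) :=
      Finset.sum_nonneg fun i _ => logHeight_nonneg _
    calc C * (1 + ∑ i, coefHeight (fib t (F i)) +
          outside S fun p : Fin r × Fin (n + 1) => y p.1 p.2)
        ≤ |C| * (1 + ∑ i, coefHeight (fib t (F i)) +
          outside S fun p : Fin r × Fin (n + 1) => y p.1 p.2) :=
          mul_le_mul_of_nonneg_right (le_abs_self C) (by linarith)
      _ ≤ |C| * ((1 + ∑ i, c i) * (1 + ∑ i, logHeight₁ (t i) +
          outside S fun p : Fin r × Fin (n + 1) => y p.1 p.2)) := by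
          refine mul_le_mul_of_nonneg_left ?_ (abs_nonneg C)
          nlinarith [mul_nonneg hcs hout]
      _ = _ := by ring
  · exfalso
    apply hHx
    let _ : Algebra (MvPolynomial (Fin q) k) K :=
      (aeval t : MvPolynomial (Fin q) k →ₐ[k] K).toRingHom.toAlgebra
    have key := hH3 K (fun (p : Fin r × Fin (n + 1)) i => if i = p.2 then y p.1 p.2 else 0)
      (fun p => l p.1 p.2) ?_ ?_
    · have h6 : (fun i => ∑ p : Fin r × Fin (n + 1), if i = p.2 then y p.1 p.2 else 0) =
          fun a => ∑ j, y j a := by
        funext i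
        rw [Fintype.sum_prod_type]
        refine Finset.sum_congr rfl fun j _ => ?_
        rw [Finset.sum_ite_eq]
        simp
      rw [h6] at key
      unfold fib
      rw [eval_map]
      exact key
    · rintro _ ⟨i, rfl⟩
      have h6 : cur (fun (p : Fin r × Fin (n + 1)) i => if i = p.2 then y p.1 p.2 else 0)
          (fun p => l p.1 p.2) = curve l y := funext fun i => curve_eq l y i
      rw [h6]
      have h7 := h2 i
      unfold fib at h7
      have h8 : (aeval t : MvPolynomial (Fin q) k →ₐ[k] K).toRingHom =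
          algebraMap (MvPolynomial (Fin q) k) K := rfl
      rw [h8, aeval_map_algebraMap] at h7
      exact h7
    · refine ⟨a, b, ?_⟩
      rw [curve_eq, curve_eq]
      have h6 : ∀ i, (∑ p : Fin r × Fin (n + 1), if i = p.2 then y p.1 p.2 else 0) =
          ∑ j, y j i := by
        intro i
        rw [Fintype.sum_prod_type]
        refine Finset.sum_congr rfl fun j _ => ?_
        rw [Finset.sum_ite_eq]
        simp
      rw [h6, h6]
      exact h3

end Run7.h128.FG
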