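import Pool.Agent.Run7.h128.FG.Fam

/-!
Families with a uniruled generic fibre: specialisation of the generic curve, and points of unbounded
height which are sums of units.
-/

set_option autoImplicit false
set_option linter.unusedSectionVars false

namespace Run7.h128.FG

open NumberField Height Finset MvPolynomial
open Run7.h128.AU (outside outside_eq exists_fin curve_unbounded)

section maps

variable {k : Type} [Field k] {q n : ℕ} {R R' : Type} [CommRing R] [CommRing R'] [Algebra k R]
  [Algebra k R']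

theorem eval_fib_map (φ : R →ₐ[k] R') (t : Fin q → R) (x : Fin (n + 1) → R)
    (F : MvPolynomial (Fin (n + 1)) (MvPolynomial (Fin q) k)) :
    φ (eval x (fib t F)) = eval (fun i => φ (x i)) (fib (fun i => φ (t i)) F) := by
  unfold fib
  rw [eval_map, eval_map]
  have h1 := MvPolynomial.hom_eval₂ F (aeval t : MvPolynomial (Fin q) k →ₐ[k] R).toRingHom
    φ.toRingHom x
  refine Eq.trans h1 ?_
  congr 1
  apply MvPolynomial.ringHom_ext
  · intro a
    show φ (aeval t (C a)) = aeval (fun i => φ (t i)) (C a)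
    rw [aeval_C, aeval_C, AlgHom.commutes]
  · intro i
    show φ (aeval t (X i)) = aeval (fun i => φ (t i)) (X i)
    rw [aeval_X, aeval_X]

theorem aeval_fib_map (φ : R →ₐ[k] R') (t : Fin q → R) (p : Fin (n + 1) → Polynomial R)
    (F : MvPolynomial (Fin (n + 1)) (MvPolynomial (Fin q) k)) :
    (aeval p (fib t F)).map φ.toRingHom =
      aeval (fun i => (p i).map φ.toRingHom) (fib (fun i => φ (t i)) F) := by
  unfold fib
  rw [aeval_def, aeval_def, eval₂_map, eval₂_map]
  have h1 := MvPolynomial.hom_eval₂ F ((algebraMap R (Polynomial R)).comp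
    (aeval t : MvPolynomial (Fin q) k →ₐ[k] R).toRingHom) (Polynomial.mapRingHom φ.toRingHom) p
  refine Eq.trans h1 ?_
  congr 1
  apply MvPolynomial.ringHom_ext
  · intro a
    show (Polynomial.C (aeval t (C a))).map φ.toRingHom =
      Polynomial.C (aeval (fun i => φ (t i)) (C a))
    rw [Polynomial.map_C, aeval_C, aeval_C]
    congr 1
    exact φ.commutes a
  · intro i
    show (Polynomial.C (aeval t (X i))).map φ.toRingHom =
      Polynomial.C (aeval (fun i => φ (t i)) (X i))
    rw [Polynomial.map_C, aeval_X, aeval_X]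
    rfl

theorem eval_aeval_fib (t : Fin q → R) (p : Fin (n + 1) → Polynomial R) (a : R)
    (F : MvPolynomial (Fin (n + 1)) (MvPolynomial (Fin q) k)) :
    (aeval p (fib t F)).eval a = eval (fun i => (p i).eval a) (fib t F) := by
  have h1 := MvPolynomial.comp_aeval_apply (R := R) p
    (Polynomial.aeval a : Polynomial R →ₐ[R] R) (fib t F)
  rw [Polynomial.coe_aeval_eq_eval] at h1
  rw [h1, MvPolynomial.aeval_def, MvPolynomial.eval, MvPolynomial.coe_eval₂Hom]
  rfl

end maps

variable {q n : ℕ}

/-- **Specialisation** of a generic curve in a fibre. -/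
theorem specialise (k : Type) [Field k] [NumberField k] (L : Type) [Field L] [Algebra k L]
    (t : Fin q → L) (p : Fin (n + 1) → Polynomial L)
    (FF : Set (MvPolynomial (Fin (n + 1)) (MvPolynomial (Fin q) k)))
    (hp : ∀ F ∈ FF, aeval p (fib t F) = 0) (N : ℕ) (hN : ∀ i, (p i).natDegree < N)
    (hc : ∃ i j, p i * Polynomial.C ((p j).eval 1) ≠ p j * Polynomial.C ((p i).eval 1))
    (G : MvPolynomial (Fin (n + 1)) (MvPolynomial (Fin q) k))
    (hG : eval (fun i => (p i).eval 1) (fib t G) ≠ 0) :
    ∃ (K : Type) (_ : Field K) (_ : NumberField K) (_ : Algebra k K) (t' : Fin q → K)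
      (p' : Fin (n + 1) → Polynomial K), (∀ i, (p' i).natDegree < N) ∧
      (∀ F ∈ FF, aeval p' (fib t' F) = 0) ∧
      (∃ i j, p' i * Polynomial.C ((p' j).eval 1) ≠ p' j * Polynomial.C ((p' i).eval 1)) ∧
      eval (fun i => (p' i).eval 1) (fib t' G) ≠ 0 := by
  classical
  obtain ⟨i1, i2, hi⟩ := hc
  obtain ⟨w, hw⟩ : ∃ w, (p i1 * Polynomial.C ((p i2).eval 1) -
      p i2 * Polynomial.C ((p i1).eval 1)).coeff w ≠ 0 := by
    by_contra h
    push Not at h
    apply hi
    rw [← sub_eq_zero]
    ext m
    rw [h m, Polynomial.coeff_zero]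
  set δ : L := (p i1 * Polynomial.C ((p i2).eval 1) -
      p i2 * Polynomial.C ((p i1).eval 1)).coeff w with hδ
  set g : L := eval (fun i => (p i).eval 1) (fib t G) with hg
  let S : Finset L := (Finset.univ.image (fun z : Fin N × Fin (n + 1) => (p z.2).coeff z.1)) ∪
    (Finset.univ.image t) ∪ {(g * δ)⁻¹}
  let R : Subalgebra k L := Algebra.adjoin k (S : Set L)
  have hft : Algebra.FiniteType k R := by
    rw [← Subalgebra.fg_iff_finiteType]
    exact Subalgebra.fg_adjoin_finset S
  have hcR : ∀ (i : Fin (n + 1)) (j : ℕ), (p i).coeff j ∈ R := by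
    intro i j
    by_cases hj : j < N
    · apply Algebra.subset_adjoin
      simp only [S, Finset.coe_union, Set.mem_union, Finset.mem_coe]
      left
      left
      exact Finset.mem_image.2 ⟨(⟨j, hj⟩, i), Finset.mem_univ _, rfl⟩
    · rw [Polynomial.coeff_eq_zero_of_natDegree_lt (by have := hN i; omega)]
      exact R.zero_mem
  have htR : ∀ i, t i ∈ R := by
    intro i
    apply Algebra.subset_adjoin
    simp only [S, Finset.coe_union, Set.mem_union, Finset.mem_coe]
    left
    right
    exact Finset.mem_image.2 ⟨i, Finset.mem_univ _, rfl⟩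
  have hinvR : (g * δ)⁻¹ ∈ R := by
    apply Algebra.subset_adjoin
    simp only [S, Finset.coe_union, Set.mem_union, Finset.mem_coe]
    right
    exact Finset.mem_singleton_self _
  -- the lifted curve
  let tR : Fin q → R := fun i => ⟨t i, htR i⟩
  let pR : Fin (n + 1) → Polynomial R := fun i =>
    ∑ j : Fin N, Polynomial.C (⟨(p i).coeff j, hcR i j⟩ : R) * Polynomial.X ^ (j : ℕ)
  have hpR : ∀ i, (pR i).map R.val.toRingHom = p i := by
    intro i
    show Polynomial.map _ (∑ j : Fin N, Polynomial.C (⟨(p i).coeff j, hcR i j⟩ : R) *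
      Polynomial.X ^ (j : ℕ)) = p i
    rw [Polynomial.map_sum]
    conv_rhs => rw [(p i).as_sum_range' N (hN i)]
    rw [Finset.sum_range]
    refine Finset.sum_congr rfl fun j _ => ?_
    rw [Polynomial.map_mul, Polynomial.map_pow, Polynomial.map_C, Polynomial.map_X,
      Polynomial.C_mul_X_pow_eq_monomial]
    rfl
  have hinj : Function.Injective (Polynomial.map (R.val.toRingHom : R →+* L)) :=
    Polynomial.map_injective _ Subtype.val_injective
  have hFc : ∀ F ∈ FF, aeval pR (fib tR F) = 0 := by
    intro F hF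
    apply hinj
    rw [Polynomial.map_zero, aeval_fib_map]
    rw [← hp F hF]
    have h1 : (fun i => (pR i).map R.val.toRingHom) = p := funext hpR
    rw [h1]
    rfl
  have hev : ∀ i, R.val ((pR i).eval 1) = (p i).eval 1 := by
    intro i
    have h1 : R.val.toRingHom ((pR i).eval 1) = (((pR i).map R.val.toRingHom).eval 1) := by
      rw [Polynomial.eval_map]
      have := Polynomial.eval₂_at_apply (p := pR i) R.val.toRingHom (1 : R)
      rw [← this, map_one]
    rw [hpR] at h1
    exact h1
  -- the maximal ideal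
  obtain ⟨m, hm⟩ := Ideal.exists_maximal R
  let K : Type := R ⧸ m
  let _ : Field K := Ideal.Quotient.field m
  let φ : R →ₐ[k] K := Ideal.Quotient.mkₐ k m
  have hφ : Function.Surjective φ := Ideal.Quotient.mkₐ_surjective k m
  have : Algebra.FiniteType k K := Algebra.FiniteType.of_surjective φ hφ
  have : Module.Finite k K := finite_of_finite_type_of_isJacobsonRing k K
  have : NumberField K := NumberField.of_module_finite k K
  -- nonvanishing
  have hgδ : g * δ ≠ 0 := mul_ne_zero hG hw
  let gR : R := eval (fun i => (pR i).eval 1) (fib tR G)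
  have hgR : R.val gR = g := by
    show R.val (eval _ _) = _
    rw [eval_fib_map, hg]
    have h1 : (fun i => R.val ((pR i).eval 1)) = fun i => (p i).eval 1 := funext hev
    rw [h1]
    rfl
  let δR : R := (pR i1 * Polynomial.C ((pR i2).eval 1) -
      pR i2 * Polynomial.C ((pR i1).eval 1)).coeff w
  have hδR : R.val δR = δ := by
    have h1 : R.val δR = ((pR i1 * Polynomial.C ((pR i2).eval 1) -
      pR i2 * Polynomial.C ((pR i1).eval 1)).map R.val.toRingHom).coeff w := by
      rw [Polynomial.coeff_map]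
      rfl
    rw [h1, Polynomial.map_sub, Polynomial.map_mul, Polynomial.map_mul, hpR, hpR,
      Polynomial.map_C, Polynomial.map_C, hδ]
    have h2 : ∀ i, R.val.toRingHom ((pR i).eval 1) = (p i).eval 1 := hev
    rw [h2, h2]
  have hunit : φ gR * φ δR * φ ⟨(g * δ)⁻¹, hinvR⟩ = 1 := by
    rw [← map_mul, ← map_mul]
    have h1 : gR * δR * ⟨(g * δ)⁻¹, hinvR⟩ = 1 := by
      apply Subtype.val_injective
      show R.val gR * R.val δR * (g * δ)⁻¹ = 1
      rw [hgR, hδR]
      exact mul_inv_cancel₀ hgδ
    rw [h1, map_one]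
  have hg0 : φ gR ≠ 0 := by
    intro h
    rw [h, zero_mul, zero_mul] at hunit
    exact zero_ne_one hunit
  have hδ0 : φ δR ≠ 0 := by
    intro h
    rw [h, mul_zero, zero_mul] at hunit
    exact zero_ne_one hunit
  -- the specialised curve
  have hevK : ∀ i, φ ((pR i).eval 1) = ((pR i).map φ.toRingHom).eval 1 := by
    intro i
    rw [Polynomial.eval_map]
    have := Polynomial.eval₂_at_apply (p := pR i) φ.toRingHom (1 : R)
    rw [map_one] at this
    exact this.symm
  refine ⟨K, inferInstance, inferInstance, inferInstance, fun i => φ (tR i),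
    fun i => (pR i).map φ.toRingHom, ?_, ?_, ⟨i1, i2, ?_⟩, ?_⟩
  · intro i
    refine lt_of_le_of_lt (Polynomial.natDegree_map_le) ?_
    have h1 : (pR i).natDegree = (p i).natDegree := by
      rw [← hpR i]
      exact (Polynomial.natDegree_map_eq_of_injective Subtype.val_injective _).symm
    rw [h1]
    exact hN i
  · intro F hF
    rw [← aeval_fib_map, hFc F hF, Polynomial.map_zero]
  · intro h
    apply hδ0
    have h1 : φ δR = ((pR i1 * Polynomial.C ((pR i2).eval 1) -
      pR i2 * Polynomial.C ((pR i1).eval 1)).map φ.toRingHom).coeff w := by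
      rw [Polynomial.coeff_map]
      rfl
    have h3 : ∀ i, φ.toRingHom ((pR i).eval 1) = ((pR i).map φ.toRingHom).eval 1 := hevK
    rw [h1, Polynomial.map_sub, Polynomial.map_mul, Polynomial.map_mul,
      Polynomial.map_C, Polynomial.map_C, h3, h3, h, sub_self, Polynomial.coeff_zero]
  · intro h
    apply hg0
    show φ (eval _ _) = 0
    rw [eval_fib_map]
    have h1 : (fun i => φ ((pR i).eval 1)) = fun i => ((pR i).map φ.toRingHom).eval 1 :=
      funext hevK
    rw [h1]
    exact h

/-- nonconstancy of a curve -/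
theorem nonconst_of {K : Type} [Field K] [Infinite K] (p : Fin (n + 1) → Polynomial K)
    (hp : ∃ i j, p i * Polynomial.C ((p j).eval 1) ≠ p j * Polynomial.C ((p i).eval 1)) :
    ∃ i j a b, (p i).eval a * (p j).eval b ≠ (p j).eval a * (p i).eval b := by
  by_contra h
  push Not at h
  obtain ⟨i, j, hij⟩ := hp
  apply hij
  apply Polynomial.funext
  intro a
  rw [Polynomial.eval_mul, Polynomial.eval_mul, Polynomial.eval_C, Polynomial.eval_C]
  exact h i j a 1

/-- **Families with a uniruled generic fibre.** -/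
theorem backward {k : Type} [Field k] [NumberField k] {m : ℕ}
    (F : Fin m → MvPolynomial (Fin (n + 1)) (MvPolynomial (Fin q) k))
    (hu : FibreUniruled (Ideal.span (Set.range F))) :
    ∃ r : ℕ, ∀ H : MvPolynomial (Fin (n + 1)) (MvPolynomial (Fin q) k),
      (∃ d, H.IsHomogeneous d) → H ∉ Ideal.span (Set.range F) →
      ∃ (K : Type) (_ : Field K) (_ : NumberField K) (_ : Algebra k K)
        (S : Finset (FinitePlace K)) (t : Fin q → K), ∀ B : ℝ,
        ∃ y : Fin r → Fin (n + 1) → K, (fun a => ∑ j, y j a) ≠ 0 ∧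
          (∀ i, eval (fun a => ∑ j, y j a) (fib t (F i)) = 0) ∧
          eval (fun a => ∑ j, y j a) (fib t H) ≠ 0 ∧
          (outside S fun p : Fin r × Fin (n + 1) => y p.1 p.2) = 0 ∧
          B < logHeight (fun a => ∑ j, y j a) := by
  classical
  obtain ⟨L, iL, iA, t, p, h1, h2, h3⟩ := hu
  set N : ℕ := Finset.univ.sup (fun i => (p i).natDegree) + 1 with hN
  refine ⟨N, fun H hH hHI => ?_⟩
  obtain ⟨K, iK, iN, iAK, t', p', hd, h4, h5, h6⟩ := specialise k L t p (Set.range F)
    (fun F' hF' => h1 F' (Ideal.subset_span hF')) N (fun i => by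
      have := Finset.le_sup (f := fun i => (p i).natDegree) (Finset.mem_univ i)
      omega) h3 H (h2 H hH hHI)
  obtain ⟨S, hS⟩ := exists_fin (fun z : Option (Fin (n + 1) × Fin N) =>
    z.elim (2 : K) (fun z => (p' z.1).coeff z.2))
  refine ⟨K, iK, iN, iAK, S, t', fun B => ?_⟩
  set g : Polynomial K := aeval p' (fib t' H) with hg
  have hg0 : g ≠ 0 := by
    intro h0
    apply h6
    rw [← eval_aeval_fib, ← hg, h0, Polynomial.eval_zero]
  have hinj : Function.Injective fun c : ℕ => (2 : K) ^ c := by
    intro a b hab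
    have h1 : ((2 ^ a : ℕ) : K) = ((2 ^ b : ℕ) : K) := by
      push_cast
      exact hab
    exact Nat.pow_right_injective le_rfl (Nat.cast_injective h1)
  have hU : (Set.range (fun c : ℕ => (2 : K) ^ c) \ {T : K | g.IsRoot T}).Infinite :=
    (Set.infinite_range_of_injective hinj).sdiff (Polynomial.finite_setOfPred_isRoot hg0)
  obtain ⟨T, ⟨⟨c, rfl⟩, hT⟩, ht1, ht2⟩ := curve_unbounded p' (nonconst_of p' h5) _ hU B
  have hqc : ∀ (i : Fin (n + 1)) (t : K),
      (p' i).eval t = ∑ j : Fin N, (p' i).coeff j * t ^ (j : ℕ) := by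
    intro i t
    rw [Polynomial.eval_eq_sum_range' (hd i), Finset.sum_range]
  have hsum : (fun a => ∑ j : Fin N, (p' a).coeff j * ((2 : K) ^ c) ^ (j : ℕ)) =
      fun a => (p' a).eval ((2 : K) ^ c) := by
    funext a
    exact (hqc a _).symm
  refine ⟨fun j a => (p' a).coeff j * ((2 : K) ^ c) ^ (j : ℕ), ?_, ?_, ?_, ?_, ?_⟩
  · rw [hsum]
    exact ht1
  · intro i
    rw [hsum, ← eval_aeval_fib, h4 (F i) ⟨i, rfl⟩, Polynomial.eval_zero]
  · rw [hsum, ← eval_aeval_fib]
    exact hT
  · have h2 : ∀ w, w ∉ S → w (2 : K) = 1 := fun w hw => hS w hw none (by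
      show (2 : K) ≠ 0
      exact two_ne_zero)
    have hone : ∀ w, w ∉ S → ∀ z : Fin N × Fin (n + 1),
        (p' z.2).coeff z.1 * ((2 : K) ^ c) ^ (z.1 : ℕ) ≠ 0 →
        w ((p' z.2).coeff z.1 * ((2 : K) ^ c) ^ (z.1 : ℕ)) = 1 := by
      intro w hw z hz
      rw [map_mul, map_pow, map_pow, h2 w hw, one_pow, one_pow, mul_one]
      exact hS w hw (some (z.2, z.1)) (left_ne_zero_of_mul hz)
    rw [outside_eq S S _ hone, Finset.sdiff_self, Finset.sum_empty]
  · rw [hsum]
    exact ht2

end Run7.h128.FG
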